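import Mathlib
import Pool.Agent.H710R2.DP.Defs
import Pool.Agent.H711R2.KG.Props
import Pool.Agent.H710R2.DP.FTasks

open scoped ComplexOrder InnerProductSpace ComplexConjugate
open Finset

noncomputable section

namespace H710R2.DP

open H759R2.Kad

namespace ZZ479

/-- the scalar diagonal embedding -/
def dia (N : Type) [CStarAlgebra N] (L : ℕ) : N →⋆ₐ[ℂ] CStarMatrix (Fin L) (Fin L) N where
  toFun a := CStarMatrix.ofMatrix (Matrix.diagonal fun _ => a)
  map_one' := by
    ext i j
    rw [CStarMatrix.one_apply, CStarMatrix.ofMatrix_apply, Matrix.diagonal_apply]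
  map_zero' := by
    ext i j
    rw [CStarMatrix.zero_apply, CStarMatrix.ofMatrix_apply, Matrix.diagonal_apply]
    split_ifs <;> rfl
  map_mul' a b := by
    ext i j
    rw [CStarMatrix.mul_apply]
    simp only [CStarMatrix.ofMatrix_apply, Matrix.diagonal_apply]
    by_cases h : i = j
    · subst h
      simp
    · simp [h]
  map_add' a b := by
    ext i j
    simp only [CStarMatrix.add_apply, CStarMatrix.ofMatrix_apply, Matrix.diagonal_apply]
    split_ifs <;> simp
  commutes' c := by
    ext i j
    rw [CStarMatrix.algebraMap_apply, CStarMatrix.ofMatrix_apply, Matrix.diagonal_apply]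
  map_star' a := by
    ext i j
    rw [CStarMatrix.star_apply]
    simp only [CStarMatrix.ofMatrix_apply, Matrix.diagonal_apply]
    by_cases h : i = j
    · subst h
      simp
    · have h' : ¬ j = i := fun hh => h hh.symm
      simp [h, h']

end ZZ479

theorem dp_Fwords : F_words := by
  intro A _ N _ _ _ L hφ hN ε hε
  obtain ⟨φ⟩ := hφ
  let ψ : N →⋆ₐ[ℂ] A := (φ.symm : CStarMatrix (Fin L) (Fin L) N →⋆ₐ[ℂ] A).comp (ZZ479.dia N L)
  obtain ⟨k, s, h1, h2⟩ := hN ε hε
  refine ⟨k, fun i => ψ (s i), ?_, ?_⟩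
  · have h3 : ∑ i, star (ψ (s i)) * ψ (s i) = ψ (∑ i, star (s i) * s i) := by
      rw [map_sum]
      exact sum_congr rfl fun i _ => by rw [map_mul, map_star]
    rw [h3, h1, map_one]
  · have h3 : ∑ i, ψ (s i) * star (ψ (s i)) = ψ (∑ i, s i * star (s i)) := by
      rw [map_sum]
      exact sum_congr rfl fun i _ => by rw [map_mul, map_star]
    rw [h3]
    exact (NonUnitalStarAlgHom.norm_apply_le ψ _).trans h2

end H710R2.DP
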